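import Pool.Agent.R412.UF.Var
set_option autoImplicit false

/-!
# MP_d72c81_ag: Beilinson–Soulé vanishing for complex varieties, from pseudofinite and `p`-adic fields

Definitions used: `FieldCohomology`, `IsMotivic`, `Zero` (file `Pool/Agent/R388/BS/Defs.lean`, helper388);
`VarietyCohomology`, `IsComputedByPoints`, `VarietiesVanish`, `FieldVanishes` (file `Pool/Agent/R936/BSC/Defs.lean`,
helper936, see `MP_d72c81_ag.ComplexNumbersSuffice`): `IsComputedByPoints T V 𝒮` says that the class `𝒮` of complex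
schemes (e.g. all smooth projective varieties) contains `Spec ℂ`, whose cohomology is the one of the field `ℂ`, and that
`H^k(X, n)` vanishes if the groups `H^(k - 2 p)(κ(x), n - p)` do (coniveau spectral sequence); `VarietiesVanish V 𝒮 m n`:
`H^k(X, n) = 0` for all `k ≤ m` and all `X` in `𝒮`; `FieldVanishes T F m n`: `H^k(F, n) = 0` for all `k ≤ m`;
`UProd k U` (file `Pool/Agent/R412/UF/Ultra.lean`): the ultraproduct of the fields `k 0, k 1, ...` with respect to the
ultrafilter `U` on `ℕ`; `HasRoots p` (file `Pool/Agent/R412/UF/Emb.lean`): each monic polynomial of positive degree over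
`ℤ` has a root modulo `p j` for almost all `j`.
-/

open Filter Polynomial Pool.Agent.R388.BS Pool.Agent.R936.BSC Pool.Agent.R412.UF

namespace Pool.Agent.Results.MP_d72c81_ag.PseudofiniteAndPadicFields

/-- Each monic polynomial of positive degree over `ℤ` has a root modulo infinitely many of the primes in `P`. -/
def ManyRoots (P : Set ℕ) : Prop :=
  ∀ f : ℤ[X], f.Monic → 0 < f.natDegree →
    {p | p ∈ P ∧ p.Prime ∧ ∃ r : ZMod p, aeval r f = 0}.Infinite

/-- The ultraproduct of the fields `ℤ/p_j`. -/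
abbrev PrimeUltra (p : ℕ → ℕ) [∀ j, Fact (p j).Prime] (U : Ultrafilter ℕ) : Type :=
  UProd (fun j => ZMod (p j)) U

/-- **Beilinson–Soulé vanishing for complex varieties from pseudofinite and `p`-adic fields.** Let `H^k(-, n)` be rational
motivic cohomology, of fields (`T`) and of the complex varieties in the class `𝒮` (`V`).

1. There are sequences of distinct primes `p_j` with `HasRoots p`; and the set of all primes `> B` satisfies `ManyRoots`.
2. For EVERY such sequence and every nonprincipal ultrafilter `U` put `K = ∏_U 𝔽_(p_j)`, a pseudofinite field, and let `P`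
   be a set of primes with `ManyRoots P`. For all `n > 0` and `m < 0` are equivalent: `H^k(X, n) = 0` for all `k ≤ m` and
   all `X` in `𝒮`; `H^k(K, n) = 0` for all `k ≤ m`; `H^k(ℚ_q, n) = 0` for all `k ≤ m` and all `q ∈ P`. And these are
   equivalent: `H^k(X, n) = 0` for all `X` in `𝒮`, all `n > 0` and `k < 0` (the question Q1); `H^(-1)(K, n) = 0` for all
   `n > 0`; `H^(-1)(ℚ_q, n) = 0` for all `n > 0` and `q ∈ P`.
3. If `H^0(ℚ_q, n) = 0` for all `n > 1`, for ONE prime `q`, then `H^k(X, n) = 0` for all `X` in `𝒮`, all `n > 0` and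
   `k < 0`. The same holds if `H^0(K, n) = 0` for all `n > 1`, for ONE nonprincipal ultraproduct `K` of ANY distinct prime
   fields. -/
theorem result :
    ((∃ p : ℕ → ℕ, (∀ j, (p j).Prime) ∧ StrictMono p ∧ HasRoots p) ∧
      ∀ B : ℕ, ManyRoots {p | B < p}) ∧
    ∀ (T : FieldCohomology), IsMotivic T → ∀ (V : VarietyCohomology) (𝒮 : Set CSch),
      IsComputedByPoints T V 𝒮 →
      (∀ (p : ℕ → ℕ) [∀ j, Fact (p j).Prime], Function.Injective p → HasRoots p →
        ∀ U : Ultrafilter ℕ, (U : Filter ℕ) ≤ cofinite → ∀ P : Set ℕ, ManyRoots P →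
        (∀ n > 0, ∀ m < 0, List.TFAE [
          VarietiesVanish V 𝒮 m n,
          FieldVanishes T (PrimeUltra p U) m n,
          ∀ (q : ℕ) [Fact q.Prime], q ∈ P → FieldVanishes T ℚ_[q] m n]) ∧
        List.TFAE [
          ∀ n > 0, VarietiesVanish V 𝒮 (-1) n,
          ∀ n > 0, Zero T (PrimeUltra p U) (-1) n,
          ∀ n > 0, ∀ (q : ℕ) [Fact q.Prime], q ∈ P → Zero T ℚ_[q] (-1) n]) ∧
      (∀ (q : ℕ) [Fact q.Prime], (∀ n > 1, Zero T ℚ_[q] 0 n) →
        ∀ n > 0, VarietiesVanish V 𝒮 (-1) n) ∧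
      ∀ (p : ℕ → ℕ) [∀ j, Fact (p j).Prime], Function.Injective p →
        ∀ U : Ultrafilter ℕ, (U : Filter ℕ) ≤ cofinite →
        (∀ n > 1, Zero T (PrimeUltra p U) 0 n) → ∀ n > 0, VarietiesVanish V 𝒮 (-1) n := by
  refine ⟨⟨exists_hasRoots, ?_⟩, fun T hT V 𝒮 hV => ⟨?_, ?_, ?_⟩⟩
  · intro B f hf hd
    refine Set.infinite_of_forall_exists_gt fun a => ?_
    obtain ⟨p, h1, h2, h3⟩ := manyRoots_aux f hd (max a B)
    exact ⟨p, ⟨lt_of_le_of_lt (le_max_right a B) h1, h2, h3⟩,
      lt_of_le_of_lt (le_max_left a B) h1⟩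
  · intro p _ hp hr U hU P hP
    rw [Nat.cofinite_eq_atTop] at hU
    exact ⟨fun n hn m hm => weight_tfae hT hV p hp hr U hU P hP hm hn,
      all_tfae hT hV p hp hr U hU P hP⟩
  · intro q _ h
    exact of_one_padic hT hV q h
  · intro p _ hp U hU h
    rw [Nat.cofinite_eq_atTop] at hU
    exact of_one_ultra hT hV p hp U hU h

end Pool.Agent.Results.MP_d72c81_ag.PseudofiniteAndPadicFields
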